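import Pool.Agent.Helper60.FF.StmtsC

set_option autoImplicit false

namespace Pool.Agent.Helper60.FF

open Polynomial

theorem m1_um {p : ℕ} [hp : Fact p.Prime] (x y : ℂ_[p]) (h : ‖x - y‖ < ‖y‖) : ‖x‖ = ‖y‖ := by
  have h1 := PadicComplex.isNonarchimedean p (x - y) y
  have h2 := PadicComplex.isNonarchimedean p (y - x) x
  rw [sub_add_cancel] at h1 h2
  rw [max_eq_right h.le] at h1
  apply le_antisymm h1
  rcases le_max_iff.1 h2 with h3 | h3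
  · rw [norm_sub_rev] at h3
    linarith
  · exact h3

/-- near a point the norm of a polynomial is constant -/
theorem m1_near {p : ℕ} [hp : Fact p.Prime] (N : Polynomial ℂ_[p]) (v : ℂ_[p]) (h : N.eval v ≠ 0) :
    ∃ δ : ℝ, 0 < δ ∧ ∀ τ : ℂ_[p], ‖τ - v‖ < δ → ‖N.eval τ‖ = ‖N.eval v‖ := by
  have hc : ContinuousAt (fun x => N.eval x) v := N.continuous.continuousAt
  obtain ⟨δ, hδ, h2⟩ := Metric.continuousAt_iff.1 hc ‖N.eval v‖ (norm_pos_iff.2 h)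
  refine ⟨δ, hδ, fun τ hτ => ?_⟩
  apply m1_um
  have h3 := @h2 τ (by rw [dist_eq_norm]; exact hτ)
  rwa [dist_eq_norm] at h3

/-- roots of polynomials with algebraic coefficients are algebraic -/
theorem m1_alg {p : ℕ} [hp : Fact p.Prime] (N : Polynomial ℂ_[p]) (hN0 : N ≠ 0)
    (hN : ∀ j, IsAlgebraic ℚ_[p] (N.coeff j)) (v : ℂ_[p]) (hv : N.IsRoot v) :
    IsAlgebraic ℚ_[p] v := by
  have h1 : N ∈ Polynomial.lifts (algebraMap (algebraicClosure ℚ_[p] ℂ_[p]) ℂ_[p]) := by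
    rw [Polynomial.lifts_iff_coeff_lifts]
    intro j
    exact ⟨⟨N.coeff j, mem_algebraicClosure_iff.2 (hN j)⟩, rfl⟩
  obtain ⟨M, hM⟩ := (Polynomial.mem_lifts _).1 h1
  have h2 : IsAlgebraic (algebraicClosure ℚ_[p] ℂ_[p]) v := by
    refine ⟨M, ?_, ?_⟩
    · rintro rfl
      rw [Polynomial.map_zero] at hM
      exact hN0 hM.symm
    · rw [aeval_def, ← eval_map, hM]
      exact hv
  exact h2.restrictScalars ℚ_[p]

theorem m1_key (h1 : ST_NRV) (h2 : ST_TRA) (h3 : ST_LFX) (h4 : ST_OVE) (h5 : ST_EVH)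
    (p n : ℕ) [hp : Fact p.Prime] (K : KD p n) (c c₀ : RatFunc K.A) (d : Polynomial K.A)
    (N : Polynomial ℂ_[p]) (hd : d ≠ 0) (hN0 : N ≠ 0) (v : ℂ_[p]) (hv : N.IsRoot v) (hvA : v ∉ K.A)
    (hva : IsAlgebraic ℚ_[p] v)
    (hτ : ∀ τ : ℂ_[p], IsAlgebraic ℚ_[p] τ → τ ∉ K.A → (K.χ τ).eval (ev K.A τ c₀) ≠ 0 ∧
      d.eval₂ K.A.subtype τ * (K.χ τ).eval (ev K.A τ c) =
        N.eval τ * (K.χ τ).eval (ev K.A τ c₀)) : False := by
  classical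
  -- the multiplicity
  obtain ⟨N₁, hN₁, hN₁v⟩ := Polynomial.exists_eq_pow_rootMultiplicity_mul_and_not_dvd N hN0 v
  set e := N.rootMultiplicity v with he
  have hepos : 0 < e := (Polynomial.rootMultiplicity_pos hN0).2 hv
  have hN₁v' : N₁.eval v ≠ 0 := by
    intro h
    exact hN₁v (Polynomial.dvd_iff_isRoot.2 h)
  obtain ⟨δ, hδ, hδ'⟩ := m1_near N₁ v hN₁v'
  have hm : 0 < e + 1 := Nat.succ_pos e
  have hd0 : algebraMap (Polynomial K.A) (RatFunc K.A) d ≠ 0 := by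
    intro h
    exact hd (RatFunc.algebraMap_injective K.A (by rw [h, map_zero]))
  set g : RatFunc K.A := algebraMap (Polynomial K.A) (RatFunc K.A) d * K.H (e + 1) c *
    (K.H (e + 1) c₀)⁻¹ with hg
  have hg0 : g ≠ 0 := mul_ne_zero (mul_ne_zero hd0 (K.H0 _ _ hm)) (inv_ne_zero (K.H0 _ _ hm))
  obtain ⟨ε, Cc, hε, hCc, hε'⟩ := (h1 p K.A K.acl g hg0).2 v hvA
  -- the field
  have := K.fin₀
  have : FiniteDimensional ℚ_[p] (IntermediateField.adjoin ℚ_[p] {v}) :=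
    IntermediateField.adjoin.finiteDimensional hva.isIntegral
  obtain ⟨E₁, hE₁, hE₁', hE₁c⟩ := h4 p K.A K.alg (K.E₀ ⊔ IntermediateField.adjoin ℚ_[p] {v})
    inferInstance c
  obtain ⟨E, hE, hE', hEc⟩ := h4 p K.A K.alg E₁ hE₁ c₀
  have hc : Ov K.A E c := hE₁c E hE'
  have hc₀ : Ov K.A E c₀ := hEc E le_rfl
  have hE₀ : K.E₀ ≤ E := (le_sup_left.trans hE₁').trans hE'
  have hvE : v ∈ E := by
    apply hE'
    apply hE₁'
    exact (le_sup_right : _ ≤ K.E₀ ⊔ IntermediateField.adjoin ℚ_[p] {v})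
      (IntermediateField.subset_adjoin ℚ_[p] {v} rfl)
  obtain ⟨π, hπA, f, hLF⟩ := (h3 p K.A K.acl E hE).2
  -- the basic identity
  have hb : ∀ τ ∈ E, τ ∉ K.A → τ ≠ v → ‖τ - v‖ < min δ ε →
      ∃ j : ℤ, ‖τ - v‖ ^ e * ‖N₁.eval v‖ = Cc * (‖π‖ ^ j) ^ (e + 1) := by
    intro τ hτE hτA hτv hlt
    have hτa : IsAlgebraic ℚ_[p] τ := by
      have := hE
      exact (isAlgebraic_algebraMap_iff (algebraMap E ℂ_[p]).injective).2
        (Algebra.IsAlgebraic.isAlgebraic (R := ℚ_[p]) (⟨τ, hτE⟩ : E))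
    obtain ⟨h6, h7⟩ := hτ τ hτa hτA
    obtain ⟨ee, hev, heX, heC, heP, heE⟩ := h5 p K.A K.acl τ hτA
    have hNτ : N.eval τ = (τ - v) ^ e * N₁.eval τ := by
      conv_lhs => rw [hN₁]
      rw [eval_mul, eval_pow, eval_sub, eval_X, eval_C]
    have hN₁τ : ‖N₁.eval τ‖ = ‖N₁.eval v‖ := hδ' τ (hlt.trans_le (min_le_left _ _))
    have hN₁τ0 : N₁.eval τ ≠ 0 := by
      rw [← norm_ne_zero_iff, hN₁τ, norm_ne_zero_iff]
      exact hN₁v'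
    have hNτ0 : N.eval τ ≠ 0 := by
      rw [hNτ]
      exact mul_ne_zero (pow_ne_zero _ (sub_ne_zero.2 hτv)) hN₁τ0
    have hχ0 : (K.χ τ).eval (ev K.A τ c) ≠ 0 := by
      intro h
      rw [h, mul_zero] at h7
      exact (mul_ne_zero hNτ0 h6) h7.symm
    obtain ⟨w, hwE, hw0, hw⟩ := K.kum E hE hE₀ c c₀ hc hc₀ τ hτE hτA (e + 1) hm hχ0 h6
    have hH0 : ev K.A τ (K.H (e + 1) c₀) ≠ 0 := by
      rw [← hev]
      exact (map_ne_zero ee).2 (K.H0 _ _ hm)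
    have hgτ : ev K.A τ g * ev K.A τ (K.H (e + 1) c₀) =
        d.eval₂ K.A.subtype τ * ev K.A τ (K.H (e + 1) c) := by
      rw [← hev, ← hev, ← hev, ← heP, ← map_mul, ← map_mul, hg]
      congr 1
      rw [mul_assoc, inv_mul_cancel₀ (K.H0 _ _ hm), mul_one]
    have h8 : N.eval τ = ev K.A τ g * w ^ (e + 1) := by
      apply mul_right_cancel₀ (mul_ne_zero h6 hH0)
      calc N.eval τ * ((K.χ τ).eval (ev K.A τ c₀) * ev K.A τ (K.H (e + 1) c₀))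
          = (N.eval τ * (K.χ τ).eval (ev K.A τ c₀)) * ev K.A τ (K.H (e + 1) c₀) := by ring
        _ = d.eval₂ K.A.subtype τ * ((K.χ τ).eval (ev K.A τ c) * ev K.A τ (K.H (e + 1) c₀)) := by
            rw [← h7]; ring
        _ = (d.eval₂ K.A.subtype τ * ev K.A τ (K.H (e + 1) c)) * (K.χ τ).eval (ev K.A τ c₀) *
            w ^ (e + 1) := by rw [hw]; ring
        _ = ev K.A τ g * w ^ (e + 1) * ((K.χ τ).eval (ev K.A τ c₀) *
            ev K.A τ (K.H (e + 1) c₀)) := by rw [← hgτ]; ring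
    obtain ⟨j, hj⟩ := hLF.val w hwE hw0
    refine ⟨j, ?_⟩
    rw [← hj, ← hε' τ hτA (hlt.trans_le (min_le_right _ _)), ← norm_pow, ← norm_pow, ← hN₁τ,
      ← norm_mul, ← hNτ, h8, norm_mul]
  -- points at distance `‖π‖ ^ k`
  have hpt : ∀ k : ℕ, ∃ τ ∈ E, τ ∉ K.A ∧ ‖τ - v‖ = ‖π‖ ^ k := by
    intro k
    have hk : 0 < ‖π ^ k‖ := by
      rw [norm_pow]
      exact pow_pos hLF.pos k
    obtain ⟨τ, hτE, hτA, hτ'⟩ := h2 p K.A K.cnt E hE (v + π ^ k)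
      (add_mem hvE (pow_mem hLF.mem k)) ‖π ^ k‖ hk
    refine ⟨τ, hτE, hτA, ?_⟩
    rw [← norm_pow]
    apply m1_um
    have h9 : τ - v - π ^ k = τ - (v + π ^ k) := by ring
    rw [h9]
    exact hτ'
  have hmin : 0 < min δ ε := lt_min hδ hε
  obtain ⟨k, hk⟩ := exists_pow_lt_of_lt_one hmin hLF.lt
  obtain ⟨τ₁, hτ₁E, hτ₁A, hτ₁⟩ := hpt k
  obtain ⟨τ₂, hτ₂E, hτ₂A, hτ₂⟩ := hpt (k + 1)
  have hπ0 : ‖π‖ ≠ 0 := hLF.pos.ne'
  have hk2 : ‖π‖ ^ (k + 1) < min δ ε := by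
    refine lt_of_le_of_lt ?_ hk
    rw [pow_succ]
    exact mul_le_of_le_one_right (pow_nonneg hLF.pos.le k) hLF.lt.le
  have hne1 : τ₁ ≠ v := by
    rintro rfl
    rw [sub_self, norm_zero] at hτ₁
    exact (pow_ne_zero k hπ0) hτ₁.symm
  have hne2 : τ₂ ≠ v := by
    rintro rfl
    rw [sub_self, norm_zero] at hτ₂
    exact (pow_ne_zero (k + 1) hπ0) hτ₂.symm
  obtain ⟨j₁, hj₁⟩ := hb τ₁ hτ₁E hτ₁A hne1 (by rw [hτ₁]; exact hk)
  obtain ⟨j₂, hj₂⟩ := hb τ₂ hτ₂E hτ₂A hne2 (by rw [hτ₂]; exact hk2)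
  rw [hτ₁] at hj₁
  rw [hτ₂] at hj₂
  -- `‖π‖ ^ e = ‖π‖ ^ ((j₂ - j₁) (e + 1))`
  have hN₁pos : 0 < ‖N₁.eval v‖ := norm_pos_iff.2 hN₁v'
  have h10 : ‖π‖ ^ (e : ℤ) * (‖π‖ ^ j₁) ^ (e + 1) = (‖π‖ ^ j₂) ^ (e + 1) := by
    apply mul_left_cancel₀ (mul_ne_zero hCc.ne' (ne_of_gt (pow_pos (pow_pos hLF.pos k) e)))
    rw [zpow_natCast]
    calc Cc * (‖π‖ ^ k) ^ e * (‖π‖ ^ e * (‖π‖ ^ j₁) ^ (e + 1))
        = (Cc * (‖π‖ ^ j₁) ^ (e + 1)) * (‖π‖ ^ e * (‖π‖ ^ k) ^ e) := by ring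
      _ = (‖π‖ ^ k) ^ e * (((‖π‖ ^ (k + 1)) ^ e) * ‖N₁.eval v‖) := by
          rw [← hj₁, pow_succ, mul_pow]; ring
      _ = Cc * (‖π‖ ^ k) ^ e * (‖π‖ ^ j₂) ^ (e + 1) := by rw [hj₂]; ring
  have h11 : ‖π‖ ^ ((e : ℤ) + j₁ * ((e + 1 : ℕ) : ℤ)) = ‖π‖ ^ (j₂ * ((e + 1 : ℕ) : ℤ)) := by
    rw [zpow_add₀ hπ0, zpow_mul, zpow_mul, zpow_natCast (‖π‖ ^ j₁), zpow_natCast (‖π‖ ^ j₂)]
    exact h10
  have h12 : (e : ℤ) + j₁ * ((e + 1 : ℕ) : ℤ) = j₂ * ((e + 1 : ℕ) : ℤ) :=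
    zpow_right_injective₀ hLF.pos hLF.lt.ne h11
  have h13 : ((e + 1 : ℕ) : ℤ) ∣ (e : ℤ) := ⟨j₂ - j₁, by linear_combination h12⟩
  have h14 : (e + 1) ∣ e := Int.natCast_dvd_natCast.1 h13
  have h15 := Nat.le_of_dvd hepos h14
  omega

theorem st_M1 (h1 : ST_NRV) (h2 : ST_TRA) (h3 : ST_LFX) (h4 : ST_OVE) (h5 : ST_EVH) : ST_M1 := by
  classical
  intro p n hp hpp K c c₀ d N hd hN hτ
  by_cases hN0 : N = 0
  · refine ⟨0, 0, ?_⟩
    rw [hN0, C_0, zero_mul]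
  have key : ∀ v ∈ N.roots, v ∈ K.A := by
    intro v hv
    have hv' : N.IsRoot v := (mem_roots hN0).1 hv
    by_contra hvA
    exact m1_key h1 h2 h3 h4 h5 p n K c c₀ d N hd hN0 v hv' hvA (m1_alg N hN0 hN v hv') hτ
  have h6 : N = C N.leadingCoeff * (N.roots.map (fun a => X - C a)).prod :=
    (IsAlgClosed.splits N).eq_prod_roots
  refine ⟨N.leadingCoeff, (N.roots.attach.map
    (fun a => X - C (⟨a.1, key a.1 a.2⟩ : K.A))).prod, ?_⟩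
  conv_lhs => rw [h6]
  congr 1
  rw [Polynomial.map_multiset_prod, Multiset.map_map]
  conv_lhs => rw [← Multiset.attach_map_val N.roots, Multiset.map_map]
  congr 1
  apply Multiset.map_congr rfl
  intro a _
  simp only [Function.comp_apply, Polynomial.map_sub, map_X, map_C]
  rfl

end Pool.Agent.Helper60.FF
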